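import Pool.Agent.Helper66.TU.Defs

/-!
# Multiplication by `π` is injective on the points modulo the points near zero

For `|d| = 1` the curve has supersingular or ordinary reduction; in both cases the multiplication
by `π` is purely inseparable on the reduction.  Elementary proof with the multiplication
polynomials: a point of the reduction killed by `π` would give a double root of the square root of
the denominator, and there are too many such points.
-/

namespace GWA

open Polynomial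

section PIT

variable {K : Type} [NormedField K] [Algebra GaussianInt K] {π : GaussianInt}

theorem LHU.pit_aeval_le (h : LHU K π) (V : GaussianInt[X]) {x : K} (hx : ‖x‖ ≤ 1) :
    ‖aeval x V‖ ≤ 1 := by
  induction V using Polynomial.induction_on' with
  | add p q hp hq =>
    rw [map_add]
    exact (h.ultra _ _).trans (max_le hp hq)
  | monomial n a =>
    rw [aeval_monomial, norm_mul, norm_pow]
    exact mul_le_one₀ (h.norm_O_le a) (by positivity) (pow_le_one₀ (norm_nonneg x) hx)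

theorem LHU.pit_taylor (h : LHU K π) (V : GaussianInt[X]) {x y : K} (hx : ‖x‖ ≤ 1)
    (hy : ‖y‖ ≤ 1) :
    ‖aeval (x + y) V - aeval x V - aeval x (derivative V) * y‖ ≤ ‖y‖ ^ 2 := by
  induction V using Polynomial.induction_on' with
  | add p q hp hq =>
    have e : aeval (x + y) (p + q) - aeval x (p + q) - aeval x (derivative (p + q)) * y =
        (aeval (x + y) p - aeval x p - aeval x (derivative p) * y) +
        (aeval (x + y) q - aeval x q - aeval x (derivative q) * y) := by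
      simp only [map_add]; ring
    rw [e]
    exact (h.ultra _ _).trans (max_le hp hq)
  | monomial n a =>
    have key : ∀ n : ℕ, ‖(x + y) ^ n - x ^ n - n * x ^ (n - 1) * y‖ ≤ ‖y‖ ^ 2 := by
      intro n
      induction n with
      | zero => simp
      | succ n ih =>
        have e : (x + y) ^ (n + 1) - x ^ (n + 1) - ((n + 1 : ℕ) : K) * x ^ (n + 1 - 1) * y =
            (x + y) * ((x + y) ^ n - x ^ n - n * x ^ (n - 1) * y) +
              n * x ^ (n - 1) * y ^ 2 := by
          cases n with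
          | zero => simp
          | succ m =>
            simp only [Nat.add_sub_cancel]
            push_cast
            ring
        rw [e]
        refine (h.ultra _ _).trans (max_le ?_ ?_)
        · rw [norm_mul]
          have h1 : ‖x + y‖ ≤ 1 := (h.ultra _ _).trans (max_le hx hy)
          calc ‖x + y‖ * ‖(x + y) ^ n - x ^ n - n * x ^ (n - 1) * y‖ ≤ 1 * ‖y‖ ^ 2 := by gcongr
            _ = _ := one_mul _
        · rw [norm_mul, norm_mul, norm_pow, norm_pow]
          have h1 : ‖x‖ ^ (n - 1) ≤ 1 := pow_le_one₀ (norm_nonneg x) hx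
          calc ‖(n : K)‖ * ‖x‖ ^ (n - 1) * ‖y‖ ^ 2 ≤ 1 * 1 * ‖y‖ ^ 2 := by
                gcongr; exact h.norm_natCast_le n
            _ = _ := by ring
    have e : aeval (x + y) (monomial n a) - aeval x (monomial n a) -
        aeval x (derivative (monomial n a)) * y =
        algebraMap GaussianInt K a * ((x + y) ^ n - x ^ n - n * x ^ (n - 1) * y) := by
      rw [derivative_monomial, aeval_monomial, aeval_monomial, aeval_monomial, map_mul,
        map_natCast]
      ring
    rw [e, norm_mul]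
    calc ‖algebraMap GaussianInt K a‖ * ‖(x + y) ^ n - x ^ n - n * x ^ (n - 1) * y‖ ≤
          1 * ‖y‖ ^ 2 := by gcongr; exacts [h.norm_O_le a, key n]
      _ = _ := one_mul _

variable {k : Type} [Field k] [Algebra GaussianInt k] {r : K → k}

theorem RMap.pit_aeval (h : LHU K π) (hr : RMap K k r) (V : GaussianInt[X]) {x : K}
    (hx : ‖x‖ ≤ 1) : r (aeval x V) = aeval (r x) V := by
  induction V using Polynomial.induction_on' with
  | add p q hp hq =>
    rw [map_add, map_add, hr.add _ _ (h.pit_aeval_le p hx) (h.pit_aeval_le q hx), hp, hq]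
  | monomial n a =>
    have hpow : ∀ n : ℕ, r (x ^ n) = r x ^ n := by
      intro n
      induction n with
      | zero =>
        rw [pow_zero, pow_zero]
        have := hr.coe 1
        rwa [map_one, map_one] at this
      | succ n ih =>
        rw [pow_succ, pow_succ, hr.mul _ _ (by
          rw [norm_pow]; exact pow_le_one₀ (norm_nonneg _) hx) hx, ih]
    rw [aeval_monomial, aeval_monomial, hr.mul _ _ (h.norm_O_le a) (by
      rw [norm_pow]; exact pow_le_one₀ (norm_nonneg _) hx), hr.coe, hpow]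

theorem RMap.pit_two (h : LHU K π) (hr : RMap K k r) : (2 : k) ≠ 0 := by
  have h1 := hr.coe 2
  rw [map_ofNat, map_ofNat] at h1
  rw [← h1]
  intro h0
  rw [hr.eq_zero _ (h.norm_two h.odd).le, h.norm_two h.odd] at h0
  exact lt_irrefl _ h0

theorem RMap.pit_ff (h : LHU K π) (hr : RMap K k r) {x : K} (hx : ‖x‖ ≤ 1) :
    r (ff x) = ff (r x) := by
  have h1 := hr.pit_aeval h (X ^ 3 - X : GaussianInt[X]) hx
  simp only [map_sub, map_pow, aeval_X] at h1
  exact h1

/-- the norm of a prime not dividing two -/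
theorem pit_odd {π : GaussianInt} (hp : Prime π) (h2 : ¬ π ∣ 2) :
    π.norm.natAbs % 2 = 1 ∧ 3 ≤ π.norm.natAbs := by
  have h0 : 0 < π.norm := GaussianInt.norm_pos.2 hp.ne_zero
  have h1 : π.norm.natAbs ≠ 1 := by
    intro h3
    exact hp.not_isUnit (Zsqrtd.norm_eq_one_iff.1 h3)
  have hodd : π.norm % 2 = 1 := by
    rcases Int.emod_two_eq_zero_or_one π.norm with h3 | h3
    swap
    · exact h3
    exfalso
    have hn : π.norm = π.re * π.re + π.im * π.im := by rw [Zsqrtd.norm_def]; ring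
    have h4 : (π.re + π.im) % 2 = 0 := by
      have h5 : (π.re + π.im) * (π.re + π.im) = π.norm + 2 * (π.re * π.im) := by rw [hn]; ring
      rcases Int.emod_two_eq_zero_or_one (π.re + π.im) with h | h
      · exact h
      · exfalso
        have h6 : ((π.re + π.im) * (π.re + π.im)) % 2 = 0 := by rw [h5]; omega
        rw [Int.mul_emod, h] at h6
        norm_num at h6
    obtain ⟨s, hs⟩ : ∃ s, π.re + π.im = 2 * s := ⟨(π.re + π.im) / 2, by omega⟩
    have e : π = GWA.lam * (⟨s, s - π.re⟩ : GaussianInt) := by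
      ext
      · simp [GWA.lam, Zsqrtd.re_mul]
      · simp [GWA.lam, Zsqrtd.im_mul]; omega
    have hlam2 : GWA.lam * (⟨1, -1⟩ : GaussianInt) = 2 := by decide
    rcases hp.dvd_or_dvd (dvd_of_eq e) with h5 | ⟨c, hc⟩
    · exact h2 (h5.trans ⟨_, hlam2.symm⟩)
    · rw [hc] at e
      have h6 : GWA.lam * c = 1 := by
        apply mul_left_cancel₀ hp.ne_zero
        rw [mul_one]
        conv_rhs => rw [e]
        ring
      have h7 := congrArg Zsqrtd.norm h6
      rw [Zsqrtd.norm_mul] at h7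
      have h8 : (GWA.lam : GaussianInt).norm = 2 := by decide
      rw [h8, Zsqrtd.norm_one] at h7
      omega
  omega

variable [NeZero (2 : K)] [DecidableEq K]

/-- a point killed by `π` modulo `nb 0` is not near a 2-torsion point -/
theorem LHU.pit_ff (h : LHU K π) {d : Kˣ} {P : E (d : K)} (hP : π • P ∈ nb π (d : K) 0)
    (hP0 : P ∉ nb π (d : K) 0) : P ≠ 0 ∧ ‖nx P‖ ≤ 1 ∧ ‖ff (nx P)‖ = 1 := by
  rcases h.node_or h.odd d P with ⟨κ, hκ⟩ | ⟨h1, h2, h3, h4, -⟩
  · exfalso
    obtain ⟨u, v, huv⟩ := bezout h.prime h.odd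
    apply hP0
    have h1 : π • κ • T d.ne_zero ∈ nb π (d : K) 0 := by
      have : π • κ • T d.ne_zero = π • P + -(π • (P - κ • T d.ne_zero)) := by
        rw [smul_sub]; abel
      rw [this]
      exact h.nb_add d.ne_zero 0 hP (neg_mem_nbh (h.nb_smul d 0 _ hκ))
    have h2 : κ • T d.ne_zero ∈ nb π (d : K) 0 := by
      have : κ • T d.ne_zero = u • (π • κ • T d.ne_zero) := by
        calc κ • T d.ne_zero = (u * π + v * 2) • κ • T d.ne_zero := by rw [huv, one_smul]
          _ = _ := by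
            rw [add_smul, mul_smul, mul_smul v 2, smul_comm (2 : GaussianInt) κ, two_smul_T,
              smul_zero, smul_zero, add_zero]
      rw [this]
      exact h.nb_smul d 0 _ h1
    have : P = (P - κ • T d.ne_zero) + κ • T d.ne_zero := (sub_add_cancel _ _).symm
    rw [this]
    exact h.nb_add d.ne_zero 0 hκ h2
  · refine ⟨h1, h2.le, ?_⟩
    have : ff (nx P) = nx P * (nx P - 1) * (nx P + 1) := by unfold ff; ring
    rw [this, norm_mul, norm_mul, h2, h3, h4]; norm_num

/-- the size of the square root of the denominator -/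
theorem LHU.pit_C (h : LHU K π) (hr : RMap K k r) {d : Kˣ} (hd : ‖(d : K)‖ = 1) {n : ℕ}
    {U V C : GaussianInt[X]} (hM : MulPol π n U V) (hC : V = C ^ 2 ∨ V = -C ^ 2)
    {P : E (d : K)} (hP : π • P ∈ nb π (d : K) 0) (hP0 : P ∉ nb π (d : K) 0) :
    ‖aeval (nx P) C‖ = ‖tt (π • P)‖ := by
  classical
  obtain ⟨hne, hx, hf⟩ := h.pit_ff hP hP0
  have hVC : ‖aeval (nx P) V‖ = ‖aeval (nx P) C‖ ^ 2 := by
    rcases hC with h1 | h1
    · rw [h1, map_pow, norm_pow]
    · rw [h1, map_neg, map_pow, norm_neg, norm_pow]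
  have hU := h.pit_aeval_le U hx
  have hV1 : ‖aeval (nx P) V‖ < 1 := by
    have hα := hP
    rw [h.mem_nb_zero_iff d.ne_zero] at hα
    rcases hM.rep K d P hne with ⟨-, h1, -⟩ | ⟨h1, h3, h4⟩
    · rw [h1, norm_zero]; exact one_pos
    · have h5 := hα.resolve_left h1
      rw [← h4, norm_mul] at hU
      have h7 : 0 < ‖aeval (nx P) V‖ := norm_pos_iff.2 h3
      by_contra hc
      push Not at hc
      nlinarith
  have hU1 : ‖aeval (nx P) U‖ = 1 := by
    apply le_antisymm hU
    by_contra hc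
    push Not at hc
    have hrU : r (aeval (nx P) U) = 0 := (hr.eq_zero _ hc.le).2 hc
    have hrV : r (aeval (nx P) V) = 0 := (hr.eq_zero _ hV1.le).2 hV1
    rw [hr.pit_aeval h _ hx] at hrU hrV
    have h2 : NeZero (2 : k) := ⟨hr.pit_two h⟩
    have hfk : ff (r (nx P)) ≠ 0 := by
      rw [← hr.pit_ff h hx]
      intro h0
      rw [hr.eq_zero _ hf.le, hf] at h0
      exact lt_irrefl _ h0
    obtain ⟨Q, hQ0, hQx, -⟩ := exists_pt (d := ff (r (nx P))) hfk (x := r (nx P))
      (s := ff (r (nx P))) (sq _)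
    have h3 := hM.rep k (Units.mk0 _ hfk) Q hQ0
    have h4 : nx (d := ((Units.mk0 _ hfk : kˣ) : k)) Q = r (nx P) := hQx
    rw [h4, hrU, hrV] at h3
    rcases h3.ne_zero with h5 | h5 <;> exact h5 rfl
  rcases hM.rep K d P hne with ⟨h1, h2, -⟩ | ⟨h1, h2, h3⟩
  · rw [h2, norm_zero] at hVC
    rw [h1, ftt_zero, norm_zero]
    exact (pow_eq_zero_iff two_ne_zero).1 hVC.symm
  · have h4 := (h.norm_tt d.ne_zero h1 hP).2
    rw [xc_eq d.ne_zero, norm_mul, hd, one_mul] at h4
    have h5 := congrArg norm h3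
    rw [norm_mul, hU1, hVC] at h5
    have h6 : ‖nx (π • P)‖ ≠ 0 := by
      intro h0
      rw [h0, mul_zero] at h4
      exact zero_ne_one h4
    have h7 : ‖aeval (nx P) C‖ ^ 2 = ‖tt (π • P)‖ ^ 2 := by
      apply mul_left_cancel₀ h6
      rw [h5, ← h4, mul_comm]
    exact (pow_left_inj₀ (norm_nonneg _) (norm_nonneg _) two_ne_zero).1 h7

/-- all nearby values of the coordinate occur -/
theorem LHU.pit_lift (h : LHU K π) {d : Kˣ} {P : E (d : K)} (hne : P ≠ 0) (hx : ‖nx P‖ ≤ 1)
    (hf : ‖ff (nx P)‖ = 1) {x : K} (hxx : ‖x - nx P‖ < 1) :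
    ∃ P' : E (d : K), nx P' = x ∧ P' - P ∈ nb π (d : K) 0 := by
  have hx1 : ‖x‖ ≤ 1 := by
    have : x = (x - nx P) + nx P := by ring
    rw [this]; exact (h.ultra _ _).trans (max_le hxx.le hx)
  have hff : ‖ff x - ff (nx P)‖ < 1 := by
    have e : ff x - ff (nx P) = (x - nx P) * (x ^ 2 + x * nx P + nx P ^ 2 - 1) := by
      unfold ff; ring
    have h1 : ‖x ^ 2 + x * nx P + nx P ^ 2 - 1‖ ≤ 1 := by
      refine (h.norm_sub_le _ _).trans (max_le ((h.ultra _ _).trans (max_le
        ((h.ultra _ _).trans (max_le ?_ ?_)) ?_)) norm_one.le)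
      · rw [norm_pow]; exact pow_le_one₀ (norm_nonneg _) hx1
      · rw [norm_mul]; exact mul_le_one₀ hx1 (norm_nonneg _) hx
      · rw [norm_pow]; exact pow_le_one₀ (norm_nonneg _) hx
    rw [e, norm_mul]
    calc ‖x - nx P‖ * ‖x ^ 2 + x * nx P + nx P ^ 2 - 1‖ ≤ ‖x - nx P‖ * 1 := by gcongr
      _ < 1 := by rw [mul_one]; exact hxx
  have hff0 : ff (nx P) ≠ 0 := by
    intro h0; rw [h0, norm_zero] at hf; exact zero_ne_one hf
  have h4 : ‖(4 : K)‖ = 1 := by
    have : (4 : K) = 2 * 2 := by norm_num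
    rw [this, norm_mul, h.norm_two h.odd, one_mul]
  obtain ⟨c, hc, -⟩ := h.sqrt (x := ff x / ff (nx P)) (by
    rw [div_sub_one hff0, norm_div, hf, div_one, h4]; exact hff)
  have hs : (c * (yc P / (d : K))) ^ 2 = (d : K) * ff x := by
    rw [mul_pow, hc, sq_ff_nx d.ne_zero]
    field_simp
  obtain ⟨P', h1, h2, -⟩ := exists_pt d.ne_zero hs
  rcases h.res_diff h.odd d.ne_zero h1 hne (by rw [h2]; exact hx1) hx
    (by rw [h2]; exact hxx) with h3 | h3
  · exact ⟨P', h2, h3⟩
  · refine ⟨-P', by rw [nx_neg, h2], ?_⟩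
    have : -P' - P = -(P' + P) := by abel
    rw [this]; exact neg_mem_nbh h3

omit [NeZero (2 : K)] [DecidableEq K] in
theorem LHU.pit_tt_le (h : LHU K π) {d : Kˣ} (hd : ‖(d : K)‖ = 1) {Q : E (d : K)}
    (hQ : Q ∈ nb π (d : K) 0) : ‖tt Q‖ ≤ ‖algebraMap GaussianInt K π‖ := by
  apply h.disc1
  have h1 := h.tt_sq_le d.ne_zero hQ
  rw [hd, mul_one] at h1
  by_contra hc
  push Not at hc
  have h2 := h.norm_pi
  have h3 : 1 ≤ ‖tt Q‖ ^ 2 := one_le_pow₀ hc
  linarith

/-- the derivative of the square root of the denominator vanishes -/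
theorem LHU.pit_deriv (h : LHU K π) (hr : RMap K k r) {d : Kˣ} (hd : ‖(d : K)‖ = 1) {n : ℕ}
    {U V C : GaussianInt[X]} (hM : MulPol π n U V) (hC : V = C ^ 2 ∨ V = -C ^ 2)
    {P : E (d : K)} (hP : π • P ∈ nb π (d : K) 0) (hP0 : P ∉ nb π (d : K) 0) :
    ‖aeval (nx P) (derivative C)‖ < 1 := by
  by_contra hc
  obtain ⟨hne, hx, hf⟩ := h.pit_ff hP hP0
  have hc1 : ‖aeval (nx P) (derivative C)‖ = 1 := le_antisymm (h.pit_aeval_le _ hx) (not_lt.1 hc)
  have hCx := h.pit_C hr hd hM hC hP hP0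
  have hτ := h.pit_tt_le hd hP
  have hρ := h.norm_pi
  have hρ0 := h.norm_pi_pos
  set ϖ := algebraMap GaussianInt K π with hϖ
  have key : ∀ s : K, ‖s‖ ≤ 1 → ∃ t : K, ‖aeval (nx P + ϖ * s) C‖ = ‖t‖ ∧
      ‖t - tt (π • P)‖ ≤ ‖ϖ‖ ^ 2 := by
    intro s hs
    have hxs : ‖nx P + ϖ * s - nx P‖ < 1 := by
      rw [add_sub_cancel_left, norm_mul]
      calc ‖ϖ‖ * ‖s‖ ≤ ‖ϖ‖ * 1 := by gcongr
        _ < 1 := by rw [mul_one]; exact hρ
    obtain ⟨P', h1, h2⟩ := h.pit_lift hne hx hf hxs
    have h3 : π • (P' - P) ∈ nb π (d : K) 0 := h.nb_smul d 0 _ h2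
    have h4 : π • (P' - P) + π • P = π • P' := by rw [← smul_add, sub_add_cancel]
    have h5 : π • P' ∈ nb π (d : K) 0 := by rw [← h4]; exact h.nb_add d.ne_zero 0 h3 hP
    have h6 : P' ∉ nb π (d : K) 0 := by
      intro h7
      apply hP0
      have : P = P' + -(P' - P) := by abel
      rw [this]
      exact h.nb_add d.ne_zero 0 h7 (neg_mem_nbh h2)
    refine ⟨tt (π • P'), ?_, ?_⟩
    · rw [← h1]; exact h.pit_C hr hd hM hC h5 h6
    · have h7 := h.tt_add d.ne_zero h3 hP
      rw [h4] at h7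
      have h8 := h.tt_pi d h2
      have h9 := h.pit_tt_le hd h2
      have h10 : ‖tt (π • (P' - P))‖ ≤ ‖ϖ‖ ^ 2 := by
        rw [h8, sq]; exact mul_le_mul_of_nonneg_left h9 (norm_nonneg _)
      have e : tt (π • P') - tt (π • P) =
          (tt (π • P') - tt (π • (P' - P)) - tt (π • P)) + tt (π • (P' - P)) := by ring
      rw [e]
      refine (h.ultra _ _).trans (max_le (h7.trans ?_) h10)
      calc ‖ϖ‖ ^ 2 * min ‖tt (π • (P' - P))‖ ‖tt (π • P)‖ ≤ ‖ϖ‖ ^ 2 * 1 := by
            gcongr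
            exact (min_le_right _ _).trans (hτ.trans hρ.le)
        _ = _ := mul_one _
  have hD0 : aeval (nx P) (derivative C) ≠ 0 := by
    intro h0; rw [h0, norm_zero] at hc1; exact zero_ne_one hc1
  have hϖ0 : ϖ ≠ 0 := h.pi_ne
  set s₀ : K := -aeval (nx P) C / (ϖ * aeval (nx P) (derivative C)) with hs₀
  have hs1 : ‖s₀‖ ≤ 1 := by
    rw [hs₀, norm_div, norm_neg, norm_mul, hc1, mul_one, hCx, div_le_one hρ0]
    exact hτ
  have hlin : aeval (nx P) C + aeval (nx P) (derivative C) * (ϖ * s₀) = 0 := by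
    rw [hs₀]; field_simp; ring
  have small : ∀ s : K, ‖s‖ ≤ 1 → ‖ϖ * s‖ ≤ 1 ∧ ‖ϖ * s‖ ^ 2 ≤ ‖ϖ‖ ^ 2 := by
    intro s hs
    have h1 : ‖ϖ * s‖ ≤ ‖ϖ‖ := by
      rw [norm_mul]
      calc ‖ϖ‖ * ‖s‖ ≤ ‖ϖ‖ * 1 := by gcongr
        _ = _ := mul_one _
    exact ⟨h1.trans hρ.le, by gcongr⟩
  -- the zero of the linear approximation
  obtain ⟨t₀, ht₀, ht₀'⟩ := key s₀ hs1
  have hτ2 : ‖tt (π • P)‖ ≤ ‖ϖ‖ ^ 2 := by
    have h1 := h.pit_taylor C hx (small s₀ hs1).1
    have e : aeval (nx P + ϖ * s₀) C - aeval (nx P) C -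
        aeval (nx P) (derivative C) * (ϖ * s₀) = aeval (nx P + ϖ * s₀) C := by
      linear_combination -hlin
    rw [e, ht₀] at h1
    have e2 : tt (π • P) = t₀ - (t₀ - tt (π • P)) := by ring
    rw [e2]
    exact (h.norm_sub_le _ _).trans (max_le (h1.trans (small s₀ hs1).2) ht₀')
  have hs2 : ‖s₀ + 1‖ ≤ 1 := (h.ultra _ _).trans (max_le hs1 norm_one.le)
  obtain ⟨t₁, ht₁, ht₁'⟩ := key (s₀ + 1) hs2
  have h1 := h.pit_taylor C hx (small (s₀ + 1) hs2).1
  have h2 : ‖t₁‖ ≤ ‖ϖ‖ ^ 2 := by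
    have e2 : t₁ = (t₁ - tt (π • P)) + tt (π • P) := by ring
    rw [e2]
    exact (h.ultra _ _).trans (max_le ht₁' hτ2)
  rw [← ht₁] at h2
  have h3 : aeval (nx P) (derivative C) * ϖ = aeval (nx P + ϖ * (s₀ + 1)) C -
      (aeval (nx P + ϖ * (s₀ + 1)) C - aeval (nx P) C -
        aeval (nx P) (derivative C) * (ϖ * (s₀ + 1))) := by
    linear_combination -hlin
  have h4 : ‖ϖ‖ ≤ ‖ϖ‖ ^ 2 := by
    have h5 := congrArg norm h3
    rw [norm_mul, hc1, one_mul] at h5
    rw [h5]
    exact (h.norm_sub_le _ _).trans (max_le (by rw [← h5]; exact h2) (by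
      rw [← h5]; exact h1.trans (small (s₀ + 1) hs2).2))
  nlinarith

/-- `π` is injective modulo the points near zero -/
theorem LHU.pi_tors (h : LHU K π) (hr : RMap K k r) {d : Kˣ} (hd : ‖(d : K)‖ = 1)
    {P : E (d : K)} (hP : π • P ∈ nb π (d : K) 0) : P ∈ nb π (d : K) 0 := by
  classical
  by_contra hP0
  obtain ⟨hodd, hN3⟩ := pit_odd h.prime h.odd
  obtain ⟨U, V, hM⟩ := exists_mulPol' π h.prime.ne_zero
  obtain ⟨C, hC, hCd⟩ := hM.odd_sq hodd
  set N := π.norm.natAbs with hN
  set W : k[X] := C.map (algebraMap GaussianInt k) with hW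
  have hV0 : IsUnit (V.coeff 0) := by
    rcases hM.zero with ⟨-, -, h1⟩ | ⟨h1, -, -⟩
    · exact h1
    · omega
  have hC0 : IsUnit (C.coeff 0) := by
    have h1 : V.coeff 0 = C.coeff 0 * C.coeff 0 ∨ V.coeff 0 = -(C.coeff 0 * C.coeff 0) := by
      rcases hC with h1 | h1
      · left; rw [h1, sq, mul_coeff_zero]
      · right; rw [h1, coeff_neg, sq, mul_coeff_zero]
    rcases h1 with h1 | h1 <;> rw [h1] at hV0
    · exact isUnit_of_mul_isUnit_left hV0
    · rw [IsUnit.neg_iff] at hV0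
      exact isUnit_of_mul_isUnit_left hV0
  have hW0 : W ≠ 0 := by
    intro h0
    have h1 := congrArg (fun p => Polynomial.coeff p 0) h0
    simp only [hW, coeff_map, coeff_zero] at h1
    exact (hC0.map (algebraMap GaussianInt k)).ne_zero h1
  set S := W.roots.toFinset.filter (fun a => 1 < W.rootMultiplicity a) with hS
  have hS2 : 2 * S.card ≤ W.natDegree := by
    calc 2 * S.card = ∑ a ∈ S, 2 := by rw [Finset.sum_const, smul_eq_mul, mul_comm]
      _ ≤ ∑ a ∈ S, W.roots.count a := Finset.sum_le_sum (fun a ha => by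
          rw [count_roots]; exact (Finset.mem_filter.1 ha).2)
      _ ≤ ∑ a ∈ W.roots.toFinset, W.roots.count a :=
          Finset.sum_le_sum_of_subset (Finset.filter_subset _ _)
      _ = Multiset.card W.roots := Multiset.toFinset_sum_count_eq _
      _ ≤ W.natDegree := card_roots' W
  have hWd : W.natDegree ≤ (N - 1) / 2 := natDegree_map_le.trans hCd
  have hπα : ∀ α : GaussianInt, π • (α • P) ∈ nb π (d : K) 0 := by
    intro α
    rw [smul_comm]
    exact h.nb_smul d 0 _ hP
  have hprop : ∀ α : GaussianInt, ¬ π ∣ α → α • P ∉ nb π (d : K) 0 := by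
    intro α hα hmem
    obtain ⟨u, v, huv⟩ := bezout h.prime hα
    apply hP0
    have : P = u • (π • P) + v • (α • P) := by
      rw [← mul_smul, ← mul_smul, ← add_smul, huv, one_smul]
    rw [this]
    exact h.nb_add d.ne_zero 0 (h.nb_smul d 0 _ hP) (h.nb_smul d 0 _ hmem)
  have hmemS : ∀ α : GaussianInt, ¬ π ∣ α → r (nx (α • P)) ∈ S := by
    intro α hα
    have h1 := hprop α hα
    obtain ⟨hne, hx, hf⟩ := h.pit_ff (hπα α) h1
    have h2 := h.pit_C hr hd hM hC (hπα α) h1
    have h3 := h.pit_deriv hr hd hM hC (hπα α) h1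
    have h4 : ‖aeval (nx (α • P)) C‖ < 1 := by
      rw [h2]; exact (h.pit_tt_le hd (hπα α)).trans_lt h.norm_pi
    have h5 : W.IsRoot (r (nx (α • P))) := by
      rw [IsRoot.def, hW, eval_map, ← aeval_def, ← hr.pit_aeval h C hx]
      exact (hr.eq_zero _ h4.le).2 h4
    have h6 : (derivative W).IsRoot (r (nx (α • P))) := by
      rw [IsRoot.def, hW, derivative_map, eval_map, ← aeval_def, ← hr.pit_aeval h _ hx]
      exact (hr.eq_zero _ h3.le).2 h3
    rw [hS, Finset.mem_filter, Multiset.mem_toFinset, mem_roots hW0]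
    exact ⟨h5, (one_lt_rootMultiplicity_iff_isRoot hW0).2 ⟨h5, h6⟩⟩
  let Q := GaussianInt ⧸ Ideal.span {π}
  have hfinQ : Finite Q := finite_quot h.prime.ne_zero
  have hout : ∀ a : Q, Ideal.Quotient.mk (Ideal.span {π}) (Quotient.out a) = a :=
    fun a => Quotient.out_eq a
  have hne : ∀ m : {m : Q // m ≠ 0}, ¬ π ∣ (Quotient.out m.1 : GaussianInt) := by
    intro m hm
    apply m.2
    rw [← hout m.1, Ideal.Quotient.eq_zero_iff_mem, Ideal.mem_span_singleton]
    exact hm
  have hdiv : ∀ δ : GaussianInt, δ • P ∈ nb π (d : K) 0 → π ∣ δ := by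
    intro δ hδ
    by_contra hc
    exact hprop δ hc hδ
  obtain ⟨-, h4⟩ := card_le_of_two (A := {m : Q // m ≠ 0}) (B := S)
    (fun m => ⟨-m.1, neg_ne_zero.2 m.2⟩)
    (fun m => ⟨r (nx ((Quotient.out m.1 : GaussianInt) • P)), hmemS _ (hne m)⟩) (by
      intro m m' hmm
      have hmm' : r (nx ((Quotient.out m.1 : GaussianInt) • P)) =
          r (nx ((Quotient.out m'.1 : GaussianInt) • P)) := congrArg Subtype.val hmm
      obtain ⟨h1, h2, -⟩ := h.pit_ff (hπα _) (hprop _ (hne m))
      obtain ⟨h1', h2', -⟩ := h.pit_ff (hπα _) (hprop _ (hne m'))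
      set x := nx ((Quotient.out m.1 : GaussianInt) • P)
      set x' := nx ((Quotient.out m'.1 : GaussianInt) • P)
      have h3 : ‖x - x'‖ < 1 := by
        have h5 : ‖x - x'‖ ≤ 1 := (h.norm_sub_le _ _).trans (max_le h2 h2')
        rw [← hr.eq_zero _ h5]
        have h6 := hr.add (x - x') x' h5 h2'
        rw [sub_add_cancel, hmm'] at h6
        linear_combination -h6
      rcases h.res_diff h.odd d.ne_zero h1 h1' h2 h2' h3 with h5 | h5
      · left
        rw [← sub_smul] at h5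
        apply Subtype.ext
        rw [← hout m.1, ← hout m'.1, Ideal.Quotient.eq, Ideal.mem_span_singleton]
        exact hdiv _ h5
      · right
        rw [← add_smul] at h5
        apply Subtype.ext
        change m.1 = -m'.1
        rw [← hout m.1, ← hout m'.1, ← map_neg, Ideal.Quotient.eq, Ideal.mem_span_singleton,
          sub_neg_eq_add]
        exact hdiv _ h5)
  have hcardQ : Nat.card Q = N := card_quot π
  have hcA : Nat.card Q = Nat.card {m : Q // m ≠ 0} + 1 := (card_eq_succ (M := Q)).2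
  have hcS : Nat.card S = S.card := by rw [Nat.card_eq_fintype_card, Fintype.card_coe]
  rw [hcS] at h4
  omega

end PIT

end GWA
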